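import Pool.Agent.Lib.H48K.F8

/-!
# Selected subsequences of almost all sequences, for all computable measures

For every computable probability measure, almost every sequence all of whose selected subsequences are
KL-stochastic is Martin-Löf random for the fair coin.
-/

open MeasureTheory Filter

namespace Pool.Agent.Results.MP_e634ee_lc.ComputableMeasures

/-- `B` is the infinite sequence selected from `X` by the rule `f`: `f` maps the bits inspected so far to the pair
(next place, is the bit at this place selected?); the run goes on for ever, no place is inspected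
twice, and infinitely many bits are selected. -/
def Sel (f : List Bool →. ℕ × Bool) (X B : ℕ → Bool) : Prop :=
  ∃ pos : ℕ → ℕ, ∃ sel : ℕ → Bool,
    (∀ k : ℕ, f (List.ofFn (fun i : Fin k => X (pos i))) = Part.some (pos k, sel k)) ∧
    Function.Injective pos ∧ Set.Infinite {k : ℕ | sel k = true} ∧
    ∀ j : ℕ, B j = X (pos (Nat.nth (fun k => sel k = true) j))

/-- The law of large numbers. -/
def LLN (B : ℕ → Bool) : Prop :=
  Tendsto (fun m : ℕ => (((Finset.range m).filter (fun j => B j = true)).card : ℝ) / (m : ℝ))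
    atTop (nhds (1 / 2))

/-- `B` is selected from `X` by a partial computable rule. -/
def Step (X B : ℕ → Bool) : Prop := ∃ f : List Bool →. ℕ × Bool, Partrec f ∧ Sel f X B

/-- KL-stochastic: all selected sequences satisfy the law of large numbers. -/
def KLStochastic (X : ℕ → Bool) : Prop := ∀ B : ℕ → Bool, Step X B → LLN B

/-- All results of two successive selections by total computable rules satisfy the law of large
numbers. -/
def TwoSteps (X : ℕ → Bool) : Prop :=
  ∀ f g : List Bool → ℕ × Bool, Computable f → Computable g → ∀ B C : ℕ → Bool,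
    Sel (fun v => Part.some (f v)) X B → Sel (fun v => Part.some (g v)) B C → LLN C

/-- The set of the sequences which begin with a word of `V`. -/
def Op (V : Set (List Bool)) : Set (ℕ → Bool) :=
  ⋃ w ∈ V, {X | List.ofFn (fun i : Fin w.length => X i) = w}

/-- Martin-Löf random sequences for the measure `ν`. -/
def Random (ν : Measure (ℕ → Bool)) (X : ℕ → Bool) : Prop :=
  ∀ W : ℕ → Set (List Bool), REPred (fun x : ℕ × List Bool => x.2 ∈ W x.1) →
    (∀ m, ν (Op (W m)) ≤ (2⁻¹ : ENNReal) ^ m) → ∃ m, X ∉ Op (W m)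

/-- The fair coin measure (the product of the measures `H69K.bern (1/2)`). -/
noncomputable def fair : Measure (ℕ → Bool) := H69K.mu fun _ => ⟨1 / 2, by constructor <;> norm_num⟩

theorem kl_iff (X : ℕ → Bool) : KLStochastic X ↔ H48K.KLStochastic X :=
  ⟨fun h f hf B hB => h B ⟨f, hf, hB⟩, fun h B ⟨f, hf, hB⟩ => h f hf B hB⟩

theorem random_iff (ν : Measure (ℕ → Bool)) (X : ℕ → Bool) : Random ν X ↔ H48K.Random ν X :=
  ⟨fun h W hW => h W hW.1 hW.2, fun h W h1 h2 => h W ⟨h1, h2⟩⟩

theorem result (ν : Measure (ℕ → Bool)) [IsProbabilityMeasure ν] (r : List Bool → ℕ → ℕ)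
    (hrc : Computable₂ r)
    (hr : ∀ w k, |ν.real {X | List.ofFn (fun i : Fin w.length => X i) = w} - (r w k : ℝ) / 2 ^ k| ≤
      1 / 2 ^ k) :
    (∀ᵐ X ∂ν, (Random fair X ↔ TwoSteps X) ∧
      (Random fair X ↔ ∀ B : ℕ → Bool, Step X B → KLStochastic B) ∧
      (Random fair X ↔ ∀ B : ℕ → Bool, Relation.ReflTransGen Step X B → KLStochastic B)) ∧
    ((∀ᵐ X ∂ν, KLStochastic X) → ν ⟂ₘ fair →
      ∃ f g : List Bool → ℕ × Bool, Computable f ∧ Computable g ∧
        ∀ X : ℕ → Bool, Random ν X → KLStochastic X →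
          ∃ B C : ℕ → Bool, Sel (fun v => Part.some (f v)) X B ∧
            Sel (fun v => Part.some (g v)) B C ∧ ∀ᶠ j in atTop, C j = true) := by
  have hc : H48K.CompReal ν := ⟨r, hrc, hr⟩
  refine ⟨?_, fun hKL hs => ?_⟩
  · filter_upwards [H48K.mixed_real ν hc] with X hX
    obtain ⟨h2, h3, h4⟩ := hX
    rw [random_iff]
    exact ⟨h2, h3.trans ⟨fun h B hB => (kl_iff B).2 (h B hB), fun h B hB => (kl_iff B).1 (h B hB)⟩,
      h4.trans ⟨fun h B hB => (kl_iff B).2 (h B hB), fun h B hB => (kl_iff B).1 (h B hB)⟩⟩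
  · have h1 : ∀ᵐ X ∂ν, H48K.KLStochastic X := by
      filter_upwards [hKL] with X hX
      exact (kl_iff X).1 hX
    obtain ⟨f, g, hf, hg, h⟩ := H48K.singular_real hc hs h1
    exact ⟨f, g, hf, hg, fun X hX1 hX2 => h X ((random_iff ν X).1 hX1) ((kl_iff X).1 hX2)⟩

end Pool.Agent.Results.MP_e634ee_lc.ComputableMeasures
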