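import Pool.Agent.Lib.H51L.Main

/-!
# MP_e634ee_lc: the lag threshold for the closure of KL-stochasticity under KL-selection

The definitions are in `Pool/Agent/Lib/H51L/Defs.lean`.

* `H51L.KL A`: `A` is KL-stochastic (`H51L.Run`: the run of a rule, `H51L.selSeq`: the selected sequence, `H51L.LLN`: the law
  of large numbers); `H51L.Church B`: `B` is computably stochastic; all as in the problem.
* `H51L.PSel A B`: `B` is selected from `A` by a partial computable rule.
* `H51L.TSel P B C`: `C` is selected from `B` by a total computable rule whose run on `B` has the property `P`.
* `H51L.LagLe h`: lag at most `h`: whenever the place `n` is selected, no place `> n + h n` has been inspected before.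
* `H51L.LagEss h`: the same with `h n + g` in place of `h n`, up to a proportion `ε` of the selected places, for every `ε > 0`
  with some constant `g` that depends on `ε`.
* `H51L.Direct`: the places are inspected in increasing order and all bits read are selected.

Proof. `1 → 2`: if `B` is computably stochastic and `D` is a computable property of words, then all words of length `g + 1`
have the frequency `2^-(g+1)` among the windows of `B` that begin at the places `n` with `D (B 0 ... B (n-1))`. A total
computable rule of lag at most `g` selects `n` iff a computable property of the prefix `B 0 ... B (n-1)` and of the window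
`B (n+1) ... B (n+g)` holds (simulation), so the selected places are a disjoint union of `2^g` sets of the form: prefix
property, given window. `2 → 3`: a sequence selected from a KL-stochastic one is computably stochastic. `4 → 1`: independent
bits with vanishing biases; at the stage `a` the first rule reads a fair header bit and then `2^a - 1` bits biased towards it,
but the stages begin so late that `h` is at least `2^a`; the second rule reads the header after the block and selects it iff
the majority is `1`.
-/

namespace Pool.Agent.Results.MP_e634ee_lc.LagThreshold

theorem result (h : ℕ → ℕ) (hc : Computable h) (hm : Monotone h) : List.TFAE [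
    ∃ b : ℕ, ∀ n : ℕ, h n ≤ b,
    ∀ B C D : ℕ → Bool, H51L.Church B → Relation.ReflTransGen (H51L.TSel (H51L.LagLe h)) B C →
      H51L.TSel (H51L.LagEss h) C D → H51L.LLN D,
    ∀ A B C D : ℕ → Bool, H51L.KL A → H51L.PSel A B → Relation.ReflTransGen (H51L.TSel (H51L.LagLe h)) B C →
      H51L.TSel (H51L.LagEss h) C D → H51L.LLN D,
    ∀ A B : ℕ → Bool, H51L.KL A → H51L.TSel H51L.Direct A B → ¬ H51L.TSel (H51L.LagLe h) B fun _ => true] :=
  H51L.threshold h hc hm

end Pool.Agent.Results.MP_e634ee_lc.LagThreshold
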