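import Pool.Agent.Lib.H48L.F

/-!
# Non-stochastic selected subsequences of sequences which are close to random sequences

One pair of total computable rules turns suitable KL-stochastic sequences, on which all supermartingales grow more
slowly than every computable order, into sequences which are constant from some place on.
-/

open MeasureTheory Filter

namespace Pool.Agent.Results.MP_e634ee_lc.NearRandom

/-- `B` is the infinite sequence selected from `X` by the rule `f`: `f` maps the bits inspected so far to the pair
(next place, is the bit at this place selected?); the run goes on for ever, no place is inspected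
twice, and infinitely many bits are selected. -/
def Sel (f : List Bool →. ℕ × Bool) (X B : ℕ → Bool) : Prop :=
  ∃ pos : ℕ → ℕ, ∃ sel : ℕ → Bool,
    (∀ k : ℕ, f (List.ofFn (fun i : Fin k => X (pos i))) = Part.some (pos k, sel k)) ∧
    Function.Injective pos ∧ Set.Infinite {k : ℕ | sel k = true} ∧
    ∀ j : ℕ, B j = X (pos (Nat.nth (fun k => sel k = true) j))

/-- KL-stochastic: all sequences selected by partial computable rules satisfy the law of large numbers. -/
def KLStochastic (X : ℕ → Bool) : Prop :=
  ∀ f : List Bool →. ℕ × Bool, Partrec f → ∀ B : ℕ → Bool, Sel f X B →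
    Tendsto (fun m : ℕ => (((Finset.range m).filter (fun j => B j = true)).card : ℝ) / (m : ℝ))
      atTop (nhds (1 / 2))

/-- Supermartingales (for the fair coin). -/
def SuperM (d : List Bool → ℝ) : Prop :=
  (∀ v, 0 ≤ d v) ∧ ∀ v, d (v ++ [true]) + d (v ++ [false]) ≤ 2 * d v

theorem result : ∃ f g : List Bool → ℕ × Bool, Computable f ∧ Computable g ∧
    (∀ v x, (f v).2 = true ∧ (f v).1 < (f (v ++ [x])).1) ∧
    ∀ d : ℕ → List Bool → ℝ, (∀ i, SuperM (d i)) →
      ∃ A : ℕ → Bool, KLStochastic A ∧
        (∀ h : ℕ → ℕ, Computable h → Monotone h → Tendsto h atTop atTop →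
          ∀ i, ∀ᶠ n in atTop, d i (List.ofFn (fun j : Fin n => A j)) ≤ h n) ∧
        ∃ B C : ℕ → Bool, Sel (fun v => Part.some (f v)) A B ∧
          Sel (fun v => Part.some (g v)) B C ∧ ∀ᶠ j in atTop, C j = true :=
  H48L.close_all

end Pool.Agent.Results.MP_e634ee_lc.NearRandom
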