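import Pool.Agent.Lib.H48K.F9

/-!
# Selected subsequences of sequences which are random for a computable product measure

A sequence that is Martin-Löf random for some computable product measure is Martin-Löf random for the fair coin
if and only if all sequences selected from it by Kolmogorov-Loveland rules are KL-stochastic.
-/

open MeasureTheory Filter

namespace Pool.Agent.Results.MP_e634ee_lc.RandomIffClosed

/-- `B` is the infinite sequence selected from `X` by the rule `f`: `f` maps the bits inspected so far to the pair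
(next place, is the bit at this place selected?); the run goes on for ever, no place is inspected
twice, and infinitely many bits are selected. -/
def Sel (f : List Bool →. ℕ × Bool) (X B : ℕ → Bool) : Prop :=
  ∃ pos : ℕ → ℕ, ∃ sel : ℕ → Bool,
    (∀ k : ℕ, f (List.ofFn (fun i : Fin k => X (pos i))) = Part.some (pos k, sel k)) ∧
    Function.Injective pos ∧ Set.Infinite {k : ℕ | sel k = true} ∧
    ∀ j : ℕ, B j = X (pos (Nat.nth (fun k => sel k = true) j))

/-- The law of large numbers. -/
def LLN (B : ℕ → Bool) : Prop :=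
  Tendsto (fun m : ℕ => (((Finset.range m).filter (fun j => B j = true)).card : ℝ) / (m : ℝ))
    atTop (nhds (1 / 2))

/-- `B` is selected from `X` by a partial computable rule. -/
def Step (X B : ℕ → Bool) : Prop := ∃ f : List Bool →. ℕ × Bool, Partrec f ∧ Sel f X B

/-- KL-stochastic: all selected sequences satisfy the law of large numbers. -/
def KLStochastic (X : ℕ → Bool) : Prop := ∀ B : ℕ → Bool, Step X B → LLN B

/-- All results of two successive selections by total computable rules satisfy the law of large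
numbers. -/
def TwoSteps (X : ℕ → Bool) : Prop :=
  ∀ f g : List Bool → ℕ × Bool, Computable f → Computable g → ∀ B C : ℕ → Bool,
    Sel (fun v => Part.some (f v)) X B → Sel (fun v => Part.some (g v)) B C → LLN C

/-- The set of the sequences which begin with a word of `V`. -/
def Op (V : Set (List Bool)) : Set (ℕ → Bool) :=
  ⋃ w ∈ V, {X | List.ofFn (fun i : Fin w.length => X i) = w}

/-- Martin-Löf random sequences for the measure `ν`. -/
def Random (ν : Measure (ℕ → Bool)) (X : ℕ → Bool) : Prop :=
  ∀ W : ℕ → Set (List Bool), REPred (fun x : ℕ × List Bool => x.2 ∈ W x.1) →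
    (∀ m, ν (Op (W m)) ≤ (2⁻¹ : ENNReal) ^ m) → ∃ m, X ∉ Op (W m)

/-- The fair coin measure (the product of the measures `H69K.bern (1/2)`). -/
noncomputable def fair : Measure (ℕ → Bool) := H69K.mu fun _ => ⟨1 / 2, by constructor <;> norm_num⟩

theorem kl_iff (X : ℕ → Bool) : KLStochastic X ↔ H48K.KLStochastic X :=
  ⟨fun h f hf B hB => h B ⟨f, hf, hB⟩, fun h B ⟨f, hf, hB⟩ => h f hf B hB⟩

theorem random_iff (ν : Measure (ℕ → Bool)) (X : ℕ → Bool) : Random ν X ↔ H48K.Random ν X :=
  ⟨fun h W hW => h W hW.1 hW.2, fun h W h1 h2 => h W ⟨h1, h2⟩⟩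

theorem result (p : ℕ → unitInterval) (r : ℕ → ℕ → ℕ) (hrc : Computable₂ r)
    (hr : ∀ n k, |(p n : ℝ) - (r n k : ℝ) / 2 ^ k| ≤ 1 / 2 ^ k) :
    (∀ X : ℕ → Bool, Random (H69K.mu p) X →
      (Random fair X ↔ Summable fun n => ((p n : ℝ) - 1 / 2) ^ 2) ∧
      (Random fair X ↔ TwoSteps X) ∧
      (Random fair X ↔ ∀ B : ℕ → Bool, Step X B → KLStochastic B) ∧
      (Random fair X ↔ ∀ B : ℕ → Bool, Relation.ReflTransGen Step X B → KLStochastic B)) ∧
    (Tendsto (fun n => (p n : ℝ)) atTop (nhds (1 / 2)) →
      (¬ Summable fun n => ((p n : ℝ) - 1 / 2) ^ 2) →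
        ∃ f g : List Bool → ℕ × Bool, Computable f ∧ Computable g ∧
          (∀ v x, (f v).2 = true ∧ (f v).1 < (f (v ++ [x])).1) ∧
          ∀ X : ℕ → Bool, Random (H69K.mu p) X →
            KLStochastic X ∧ ∃ B C : ℕ → Bool, Sel (fun v => Part.some (f v)) X B ∧
              Sel (fun v => Part.some (g v)) B C ∧ ∀ᶠ j in atTop, C j = true) := by
  refine ⟨fun X hX => ?_, fun hlim hns => ?_⟩
  · obtain ⟨h1, h2, h3, h4⟩ := H48K.final_real p r hrc hr X ((random_iff _ X).1 hX)
    rw [random_iff]
    exact ⟨h1, h2, h3.trans ⟨fun h B hB => (kl_iff B).2 (h B hB), fun h B hB => (kl_iff B).1 (h B hB)⟩,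
      h4.trans ⟨fun h B hB => (kl_iff B).2 (h B hB), fun h B hB => (kl_iff B).1 (h B hB)⟩⟩
  · obtain ⟨f, g, hf, hg, hm, hfg⟩ := H48K.rules_real p r hrc hr hlim hns
    exact ⟨f, g, hf, hg, hm, fun X hX => ⟨(kl_iff X).2 (hfg X ((random_iff _ X).1 hX)).1,
      (hfg X ((random_iff _ X).1 hX)).2⟩⟩

end Pool.Agent.Results.MP_e634ee_lc.RandomIffClosed
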